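import Pool.Agent.H312R210.Cert

namespace Pool.Agent.H312R210

set_option maxRecDepth 100000 in
/-- the finite verification of the local drift inequality -/
theorem check_ok : forallWords 8 (fun V => !(validL V) || okV V) = true := by decide +kernel

theorem okV_of_valid (V : List Cell) (h8 : V.length = 8) (hv : validL V = true) :
    okV V = true := by
  have := forallWords_sound 8 _ check_ok V h8
  simpa [hv] using this

end Pool.Agent.H312R210
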