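import Pool.Agent.H312R210.Cert

namespace Pool.Agent.H312R210

open Cell Finset

/-! ### polynomials -/

def evalP (u : ℝ) : List ℕ → ℝ
  | [] => 0
  | a :: p => (a : ℝ) + u * evalP u p

theorem evalP_nonneg {u : ℝ} (hu : 0 ≤ u) : ∀ p, 0 ≤ evalP u p
  | [] => le_refl _
  | a :: p => by
    simp only [evalP]
    have := evalP_nonneg hu p
    positivity

theorem evalP_padd (u : ℝ) : ∀ p q, evalP u (padd p q) = evalP u p + evalP u q
  | [], q => by simp [padd, evalP]
  | a :: p, [] => by simp [padd, evalP]
  | a :: p, b :: q => by
    simp only [padd, evalP, evalP_padd u p q]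
    push_cast
    ring

theorem evalP_mul1p (u : ℝ) (p : List ℕ) : evalP u (mul1p p) = (1 + u) * evalP u p := by
  simp only [mul1p, evalP_padd, evalP]
  push_cast
  ring

theorem evalP_ple {u : ℝ} (hu : 0 ≤ u) : ∀ p q, ple p q = true → evalP u p ≤ evalP u q
  | [], q => by
    intro _
    simpa [evalP] using evalP_nonneg hu q
  | a :: p, [] => by
    intro h
    simp only [ple, Bool.and_eq_true, beq_iff_eq] at h
    obtain ⟨h1, h2⟩ := h
    have := evalP_ple hu p [] h2
    simp only [evalP] at this ⊢
    subst h1
    have h3 := evalP_nonneg hu p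
    have : evalP u p = 0 := le_antisymm this h3
    simp [this]
  | a :: p, b :: q => by
    intro h
    simp only [ple, Bool.and_eq_true] at h
    obtain ⟨h1, h2⟩ := h
    have h3 := evalP_ple hu p q h2
    have h4 : a ≤ b := Nat.le_of_ble_eq_true h1
    have h5 : (a : ℝ) ≤ b := by exact_mod_cast h4
    simp only [evalP]
    have := mul_le_mul_of_nonneg_left h3 hu
    linarith

/-! ### coins -/

variable {n : ℕ} [NeZero n]

/-- probability of a set of coins -/
noncomputable def wt (α : ℝ) (B : ZMod n → Bool) : ℝ := ∏ i, (if B i then α else 1 - α)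

/-- expectation over the coins -/
noncomputable def Ex (α : ℝ) (F : (ZMod n → Bool) → ℝ) : ℝ := ∑ B, wt α B * F B

theorem wt_update_mul (α : ℝ) (B : ZMod n → Bool) (i : ZMod n) (b : Bool) :
    wt α (Function.update B i b) =
      (if b then α else 1 - α) * ∏ j ∈ univ.erase i, (if B j then α else 1 - α) := by
  unfold wt
  rw [← Finset.mul_prod_erase univ _ (mem_univ i)]
  congr 1
  · simp
  · apply Finset.prod_congr rfl
    intro j hj
    rw [Function.update_of_ne (Finset.ne_of_mem_erase hj)]

theorem wt_eq (α : ℝ) (B : ZMod n → Bool) (i : ZMod n) :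
    wt α B = (if B i then α else 1 - α) * ∏ j ∈ univ.erase i, (if B j then α else 1 - α) := by
  unfold wt
  rw [← Finset.mul_prod_erase univ _ (mem_univ i)]

theorem sum_split (i : ZMod n) (F : (ZMod n → Bool) → ℝ) :
    ∑ B, F B = (1 / 2) * ∑ B, (F (Function.update B i true) + F (Function.update B i false)) := by
  have key : ∑ B : ZMod n → Bool, F B = ∑ B : ZMod n → Bool, F (Function.update B i (!(B i))) := by
    refine (Fintype.sum_equiv (Function.Involutive.toPerm
      (fun B : ZMod n → Bool => Function.update B i (!(B i))) ?_) _ _ ?_)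
    · intro B
      funext j
      by_cases h : j = i
      · subst h; simp
      · simp [Function.update_of_ne h]
    · intro B
      show F B = F (Function.update (Function.update B i (!(B i))) i
        (!(Function.update B i (!(B i)) i)))
      congr 1
      funext j
      by_cases h : j = i
      · subst h; simp
      · simp [Function.update_of_ne h]
  have h2 : ∑ B : ZMod n → Bool, (F (Function.update B i true) + F (Function.update B i false))
      = ∑ B : ZMod n → Bool, (F B + F (Function.update B i (!(B i)))) := by
    apply Finset.sum_congr rfl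
    intro B _
    cases hB : B i
    · have : Function.update B i false = B := by rw [← hB]; simp
      simp [this, add_comm]
    · have : Function.update B i true = B := by rw [← hB]; simp
      simp [this]
  rw [h2, Finset.sum_add_distrib, ← key]
  ring

theorem Ex_cond (α : ℝ) (i : ZMod n) (F : (ZMod n → Bool) → ℝ) :
    Ex α F = α * Ex α (fun B => F (Function.update B i true)) +
      (1 - α) * Ex α (fun B => F (Function.update B i false)) := by
  unfold Ex
  rw [sum_split i (fun B => wt α B * F B), sum_split i (fun B => wt α B * F (Function.update B i true)),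
    sum_split i (fun B => wt α B * F (Function.update B i false))]
  simp only [Function.update_idem, wt_update_mul]
  rw [← mul_assoc, ← mul_assoc, mul_comm α, mul_comm (1 - α), mul_assoc, mul_assoc, ← mul_add]
  congr 1
  rw [Finset.mul_sum, Finset.mul_sum, ← Finset.sum_add_distrib]
  apply Finset.sum_congr rfl
  intro B _
  simp only [if_true, Bool.false_eq_true, if_false]
  ring

theorem wt_sum (α : ℝ) : ∑ B : ZMod n → Bool, wt α B = 1 := by
  unfold wt
  have := Finset.prod_univ_sum (ι := ZMod n) (κ := fun _ => Bool) (t := fun _ => univ)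
    (f := fun _ b => if b then α else 1 - α)
  rw [Fintype.piFinset_univ] at this
  rw [← this]
  simp

theorem Ex_const (α c : ℝ) : Ex (n := n) α (fun _ => c) = c := by
  unfold Ex
  rw [← Finset.sum_mul, wt_sum, one_mul]

theorem Ex_add (α : ℝ) (F G : (ZMod n → Bool) → ℝ) :
    Ex α (fun B => F B + G B) = Ex α F + Ex α G := by
  unfold Ex
  rw [← Finset.sum_add_distrib]
  apply Finset.sum_congr rfl
  intro B _
  ring

theorem Ex_sum (α : ℝ) {ι : Type*} (s : Finset ι) (F : ι → (ZMod n → Bool) → ℝ) :
    Ex α (fun B => ∑ j ∈ s, F j B) = ∑ j ∈ s, Ex α (F j) := by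
  unfold Ex
  rw [Finset.sum_comm]
  apply Finset.sum_congr rfl
  intro B _
  rw [Finset.mul_sum]

end Pool.Agent.H312R210
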