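import Mathlib

/-!
Definitions used in the statement of the result on alpha-asynchronous elementary rule 210.
-/

namespace Pool.Agent.H312R210

open MeasureTheory
open scoped ENNReal NNReal

variable {n : ℕ}

/-- local rule of elementary cellular automaton 210 (arguments: left, centre, right) -/
def rule210 : Bool → Bool → Bool → Bool
  | true, true, true => true
  | true, true, false => true
  | true, false, true => false
  | true, false, false => true
  | false, true, true => false
  | false, true, false => false
  | false, false, true => true
  | false, false, false => false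

/-- one update on the ring `ℤ/nℤ`: exactly the cells `i` with `B i = true` apply the local rule,
all of them reading the old configuration `x`; the other cells keep their state -/
def step (B x : ZMod n → Bool) : ZMod n → Bool :=
  fun i => if B i then rule210 (x (i - 1)) (x i) (x (i + 1)) else x i

/-- a configuration is a fixed point if every update leaves it unchanged -/
def IsFixed (x : ZMod n → Bool) : Prop := ∀ B, step B x = x

/-- the trajectory `x^t` driven by the coin sequence `ω` : at time `t` cell `i` is updated iff
`ω t i = true` -/
def traj (x : ZMod n → Bool) (ω : ℕ → ZMod n → Bool) : ℕ → (ZMod n → Bool)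
  | 0 => x
  | t + 1 => step (ω t) (traj x ω t)

/-- `T(x)`: the first time at which the trajectory is at a fixed point (`⊤` if there is none) -/
noncomputable def hit (x : ZMod n → Bool) (ω : ℕ → ZMod n → Bool) : ℕ∞ :=
  ⨅ (t : ℕ) (_ : IsFixed (traj x ω t)), (t : ℕ∞)

/-- a coin: `true` with probability `p`, `false` with probability `1 - p` -/
noncomputable def coin (p : ℝ≥0) (hp : p ≤ 1) : PMF Bool :=
  PMF.ofFintype (fun b => if b then (p : ℝ≥0∞) else 1 - (p : ℝ≥0∞)) (by
    have h : (p : ℝ≥0∞) ≤ 1 := by exact_mod_cast hp
    simp [add_tsub_cancel_of_le h])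

/-- independent coins with success probability `p`, one for each cell -/
noncomputable def coins (n : ℕ) [NeZero n] (p : ℝ≥0) (hp : p ≤ 1) : Measure (ZMod n → Bool) :=
  Measure.pi fun _ : ZMod n => (coin p hp).toMeasure

/-- the law of all coins: independent over all times and all cells -/
noncomputable def law (n : ℕ) [NeZero n] (p : ℝ≥0) (hp : p ≤ 1) :
    Measure (ℕ → ZMod n → Bool) :=
  Measure.infinitePi fun _ : ℕ => coins n p hp

/-- the expectation of `T(x)` -/
noncomputable def meanTime [NeZero n] (p : ℝ≥0) (hp : p ≤ 1) (x : ZMod n → Bool) : ℝ≥0∞ :=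
  ∫⁻ ω, ((hit x ω : ℕ∞) : ℝ≥0∞) ∂(law n p hp)

/-- the relaxation time `R_p(n)`: the maximum over the initial configurations of the expectation
of `T(x)` -/
noncomputable def relaxationTime (n : ℕ) [NeZero n] (p : ℝ≥0) (hp : p ≤ 1) : ℝ≥0∞ :=
  ⨆ x : ZMod n → Bool, meanTime p hp x

end Pool.Agent.H312R210
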