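import Pool.Agent.H312R210.Time

namespace Pool.Agent.H312R210

open MeasureTheory ProbabilityTheory Finset Cell
open scoped ENNReal NNReal

variable {n : ℕ}

instance : MeasurableSpace Cell := ⊤

instance : MeasurableSingletonClass Cell := ⟨fun _ => trivial⟩

theorem isFixed_of_const {x : ZMod n → Bool} (h : ∀ i j, x i = x j) : IsFixed x := by
  intro B
  funext i
  unfold step
  rw [h (i - 1) i, h (i + 1) i]
  split_ifs
  · cases x i <;> rfl
  · rfl

theorem exists_ne_of_not_fixed [NeZero n] {x : ZMod n → Bool} (h : ¬ IsFixed x) :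
    ∃ j, x j ≠ x (j + 1) := by
  by_contra hc
  push Not at hc
  have h1 := exists_ne_succ hc
  exact h (isFixed_of_const (fun i j => by rw [h1 i, h1 j]))

/-- bound for one entry of the potential -/
noncomputable def Kb (u : ℝ) : ℝ :=
  ∑ a : Cell, ∑ b : Cell, ∑ c : Cell, ∑ d : Cell, evalP u (phiT.get [a, b, c, d])

theorem Kb_nonneg {u : ℝ} (hu : 0 ≤ u) : 0 ≤ Kb u := by
  unfold Kb
  exact sum_nonneg fun a _ => sum_nonneg fun b _ => sum_nonneg fun c _ => sum_nonneg fun d _ =>
    evalP_nonneg hu _

theorem le_Kb {u : ℝ} (hu : 0 ≤ u) (a b c d : Cell) :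
    evalP u (phiT.get [a, b, c, d]) ≤ Kb u := by
  unfold Kb
  have h4 : evalP u (phiT.get [a, b, c, d]) ≤ ∑ d : Cell, evalP u (phiT.get [a, b, c, d]) :=
    single_le_sum (f := fun d => evalP u (phiT.get [a, b, c, d]))
      (fun d _ => evalP_nonneg hu _) (mem_univ d)
  have h3 := single_le_sum (f := fun c => ∑ d : Cell, evalP u (phiT.get [a, b, c, d]))
      (fun c _ => sum_nonneg fun d _ => evalP_nonneg hu _) (mem_univ c)
  have h2 := single_le_sum (f := fun b => ∑ c : Cell, ∑ d : Cell, evalP u (phiT.get [a, b, c, d]))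
      (fun b _ => sum_nonneg fun c _ => sum_nonneg fun d _ => evalP_nonneg hu _) (mem_univ b)
  have h1 := single_le_sum
      (f := fun a => ∑ b : Cell, ∑ c : Cell, ∑ d : Cell, evalP u (phiT.get [a, b, c, d]))
      (fun a _ => sum_nonneg fun b _ => sum_nonneg fun c _ => sum_nonneg fun d _ =>
        evalP_nonneg hu _) (mem_univ a)
  exact h4.trans (h3.trans (h2.trans h1))

theorem Phi_nonneg [NeZero n] {u : ℝ} (hu : 0 ≤ u) (c : ZMod n → Cell) : 0 ≤ Phi u c :=
  sum_nonneg fun _ _ => evalP_nonneg hu _

theorem Phi_le [NeZero n] {u : ℝ} (hu : 0 ≤ u) (c : ZMod n → Cell) : Phi u c ≤ n * Kb u := by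
  unfold Phi
  calc ∑ j, evalP u (phiT.get (cells c 4 j)) ≤ ∑ _j : ZMod n, Kb u :=
        sum_le_sum fun j _ => le_Kb hu _ _ _ _
    _ = n * Kb u := by simp [ZMod.card]

open Classical in
/-- large rings -/
theorem large [NeZero n] (h6 : 6 ≤ n) (p : ℝ≥0) (hp : p ≤ 1) {u δ : ℝ} (hu : 0 < u)
    (hα : (1 + u) * (p : ℝ) = u) (hδ : δ = u ^ 2 / (1 + u) ^ 6) (x : ZMod n → Bool) :
    meanTime p hp x ≤ ENNReal.ofReal (n * Kb u) / ENNReal.ofReal δ := by
  have hδ0 : 0 < δ := by rw [hδ]; positivity
  let c0 : ZMod n → Cell := fun i => if x i then E else M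
  have hbase : base c0 = x := by
    funext i
    simp only [base, c0]
    cases x i <;> rfl
  have hvalid : Valid c0 := by
    intro j hj
    simp only [c0] at hj
    split_ifs at hj
  have hmain := meanTime_le (n := n) p hp (S := ZMod n → Cell) upd base base_upd Valid
    (fun B y hy => valid_upd hy B) (fun c => ENNReal.ofReal (Phi u c)) (ENNReal.ofReal δ)
    (by simpa using hδ0) ENNReal.ofReal_ne_top (by
      intro c hc
      rw [sum_ofReal p hp _ (fun B => Phi_nonneg hu.le _)]
      have hd := drift h6 hu.le hα hc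
      have hpos : (0 : ℝ) < (1 + u) ^ 6 := by positivity
      have hm0 : ∀ j ∈ (univ : Finset (ZMod n)),
          (0 : ℝ) ≤ (if mixed (cells c 8 j) then u ^ 2 else 0) := by
        intro j _
        split_ifs <;> positivity
      have hEx : 0 ≤ Ex (p : ℝ) (fun B => Phi u (upd B c)) := by
        unfold Ex
        have h1 : (p : ℝ) ≤ 1 := by exact_mod_cast hp
        exact sum_nonneg fun B _ => mul_nonneg (wt_nonneg (NNReal.coe_nonneg p) h1 B)
          (Phi_nonneg hu.le _)
      by_cases hf : IsFixed (base c)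
      · rw [if_pos hf, add_zero]
        apply ENNReal.ofReal_le_ofReal
        have := sum_nonneg hm0
        have h2 : (1 + u) ^ 6 * Ex (p : ℝ) (fun B => Phi u (upd B c)) ≤ (1 + u) ^ 6 * Phi u c := by
          linarith
        exact le_of_mul_le_mul_left h2 hpos
      · rw [if_neg hf, ← ENNReal.ofReal_add hEx hδ0.le]
        apply ENNReal.ofReal_le_ofReal
        obtain ⟨j, hj⟩ := exists_ne_of_not_fixed hf
        have h3 := single_le_sum hm0 (mem_univ j)
        simp only [mixed_of_ne hj, if_true] at h3
        have h4 : (1 + u) ^ 6 * δ = u ^ 2 := by rw [hδ]; field_simp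
        have h2 : (1 + u) ^ 6 * (Ex (p : ℝ) (fun B => Phi u (upd B c)) + δ) ≤
            (1 + u) ^ 6 * Phi u c := by
          rw [mul_add, h4]
          linarith
        exact le_of_mul_le_mul_left h2 hpos) c0 hvalid
  rw [hbase] at hmain
  refine hmain.trans ?_
  gcongr
  exact Phi_le hu.le c0

/-- number of zeros -/
def zeros [NeZero n] (x : ZMod n → Bool) : ℕ := (univ.filter (fun i => x i = false)).card

noncomputable def gq (q : ℝ) : ℕ → ℝ
  | 0 => 0
  | k + 1 => (gq q k + 1) / q

theorem gq_nonneg {q : ℝ} (hq : 0 < q) : ∀ k, 0 ≤ gq q k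
  | 0 => le_refl _
  | k + 1 => by
    have := gq_nonneg hq k
    simp only [gq]
    positivity

theorem gq_mono {q : ℝ} (hq : 0 < q) (hq1 : q ≤ 1) : Monotone (gq q) := by
  apply monotone_nat_of_le_succ
  intro k
  have h := gq_nonneg hq k
  simp only [gq]
  rw [le_div_iff₀ hq]
  nlinarith

theorem wt_ge [NeZero n] {α : ℝ} (h0 : 0 < α) (h1 : α < 1) (B : ZMod n → Bool) :
    (min α (1 - α)) ^ n ≤ wt α B := by
  unfold wt
  have hc : (Finset.univ : Finset (ZMod n)).card = n := by simp [ZMod.card]
  calc (min α (1 - α)) ^ n = ∏ _i : ZMod n, min α (1 - α) := by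
        rw [Finset.prod_const, hc]
    _ ≤ ∏ i, (if B i then α else 1 - α) := by
        apply Finset.prod_le_prod
        · intro i _
          exact le_min h0.le (by linarith)
        · intro i _
          split_ifs
          · exact min_le_left _ _
          · exact min_le_right _ _

theorem exists_01 [NeZero n] {x : ZMod n → Bool} (h : ¬ IsFixed x) :
    ∃ j, x j = false ∧ x (j + 1) = true := by
  by_contra hc
  push Not at hc
  apply h
  apply isFixed_of_const
  by_cases hf : ∃ i0, x i0 = false
  · obtain ⟨i0, h0⟩ := hf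
    have h1 : ∀ k : ℕ, x (i0 + k) = false := by
      intro k
      induction k with
      | zero => simpa using h0
      | succ k ih =>
        have := hc _ ih
        push_cast
        rw [← add_assoc]
        simpa using this
    have h2 : ∀ i, x i = false := by
      intro i
      have := h1 (i - i0).val
      rw [ZMod.natCast_zmod_val] at this
      simpa using this
    intro i j
    rw [h2 i, h2 j]
  · push Not at hf
    intro i j
    have hi := hf i
    have hj := hf j
    simp only [ne_eq, Bool.not_eq_false] at hi hj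
    rw [hi, hj]

theorem zeros_flip [NeZero n] {x : ZMod n → Bool} {j : ZMod n} (h0 : x j = false)
    (h1 : x (j + 1) = true) : zeros (step (fun i => decide (i = j + 1)) x) = zeros x + 1 := by
  unfold zeros
  have : (univ.filter (fun i => step (fun i => decide (i = j + 1)) x i = false)) =
      insert (j + 1) (univ.filter (fun i => x i = false)) := by
    ext i
    simp only [mem_filter, mem_univ, true_and, mem_insert, step, decide_eq_true_eq]
    by_cases hi : i = j + 1
    · subst hi
      simp only [if_true, true_or, iff_true, add_sub_cancel_right, h0, h1]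
      cases x (j + 1 + 1) <;> rfl
    · simp [hi]
  rw [this, card_insert_of_notMem]
  simp [h1]

open Classical in
/-- small rings: a crude bound -/
theorem small [NeZero n] (p : ℝ≥0) (hp : p ≤ 1) (hp0 : 0 < p) (hp1 : p < 1) :
    ∃ C : ℝ, ∀ x : ZMod n → Bool, meanTime p hp x ≤ ENNReal.ofReal C := by
  have hα0 : (0 : ℝ) < p := by exact_mod_cast hp0
  have hα1 : (p : ℝ) < 1 := by exact_mod_cast hp1
  set q : ℝ := (min (p : ℝ) (1 - p)) ^ n with hq
  have hm : 0 < min (p : ℝ) (1 - p) := lt_min hα0 (by linarith)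
  have hq0 : 0 < q := by rw [hq]; positivity
  have hq1 : q ≤ 1 := by
    rw [hq]
    apply pow_le_one₀ hm.le
    exact (min_le_left _ _).trans hα1.le
  have hzn : ∀ x : ZMod n → Bool, zeros x ≤ n := by
    intro x
    unfold zeros
    refine (card_filter_le _ _).trans ?_
    simp [ZMod.card]
  refine ⟨gq q n, fun x => ?_⟩
  have hF0 : ∀ x : ZMod n → Bool, 0 ≤ gq q n - gq q (zeros x) := by
    intro x
    have := gq_mono hq0 hq1 (hzn x)
    linarith
  have hmain := meanTime_le (n := n) p hp (S := ZMod n → Bool) step id (fun _ _ => rfl)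
    (fun _ => True) (fun _ _ _ => trivial)
    (fun y => ENNReal.ofReal (gq q n - gq q (zeros y))) 1 one_ne_zero ENNReal.one_ne_top (by
      intro y _
      rw [sum_ofReal p hp _ (fun B => hF0 _)]
      have hEx : 0 ≤ Ex (p : ℝ) (fun B => gq q n - gq q (zeros (step B y))) := by
        unfold Ex
        exact sum_nonneg fun B _ => mul_nonneg (wt_nonneg (NNReal.coe_nonneg p) hα1.le B)
          (hF0 _)
      by_cases hf : IsFixed (id y)
      · rw [if_pos hf, add_zero]
        apply ENNReal.ofReal_le_ofReal
        have : (fun B => gq q n - gq q (zeros (step B y))) = fun _ => gq q n - gq q (zeros y) := by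
          funext B
          have hB : step B y = y := hf B
          rw [hB]
        rw [this, Ex_const]
      · rw [if_neg hf]
        have h1e : (1 : ℝ≥0∞) = ENNReal.ofReal 1 := by simp
        rw [h1e, ← ENNReal.ofReal_add hEx zero_le_one]
        apply ENNReal.ofReal_le_ofReal
        obtain ⟨j, hj0, hj1⟩ := exists_01 hf
        have hsplit : Ex (p : ℝ) (fun B => gq q n - gq q (zeros (step B y))) =
            gq q n - Ex (p : ℝ) (fun B => gq q (zeros (step B y))) := by
          unfold Ex
          simp only [mul_sub]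
          rw [sum_sub_distrib, ← Finset.sum_mul, wt_sum, one_mul]
        rw [hsplit]
        have hge : gq q (zeros y) + 1 ≤ Ex (p : ℝ) (fun B => gq q (zeros (step B y))) := by
          unfold Ex
          have h3 := single_le_sum (f := fun B => wt (p : ℝ) B * gq q (zeros (step B y)))
            (fun B _ => mul_nonneg (wt_nonneg (NNReal.coe_nonneg p) hα1.le B)
              (gq_nonneg hq0 _)) (mem_univ (fun i => decide (i = j + 1)))
          have h4 : zeros (step (fun i => decide (i = j + 1)) y) = zeros y + 1 :=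
            zeros_flip hj0 hj1
          simp only [h4] at h3
          refine le_trans ?_ h3
          have h5 := wt_ge (n := n) hα0 hα1 (fun i => decide (i = j + 1))
          have h6 : gq q (zeros y + 1) = (gq q (zeros y) + 1) / q := rfl
          have h7 : 0 ≤ gq q (zeros y + 1) := gq_nonneg hq0 _
          calc gq q (zeros y) + 1 = q * gq q (zeros y + 1) := by rw [h6]; field_simp
            _ ≤ wt (p : ℝ) (fun i => decide (i = j + 1)) * gq q (zeros y + 1) :=
              mul_le_mul_of_nonneg_right h5 h7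
        linarith) x trivial
  simp only [id, div_one] at hmain
  refine hmain.trans (ENNReal.ofReal_le_ofReal ?_)
  have := gq_nonneg hq0 (zeros x)
  linarith

/-- the relaxation time is at most linear for every `0 < p < 1` -/
theorem main (p : ℝ≥0) (hp : p ≤ 1) (hp0 : 0 < p) (hp1 : p < 1) :
    ∃ C : ℝ≥0, ∀ (n : ℕ) [NeZero n], 3 ≤ n → relaxationTime n p hp ≤ (C : ℝ≥0∞) * (n : ℝ≥0∞) := by
  have hα0 : (0 : ℝ) < p := by exact_mod_cast hp0
  have hα1 : (p : ℝ) < 1 := by exact_mod_cast hp1
  set u : ℝ := p / (1 - p) with hu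
  have h1p : (0 : ℝ) < 1 - p := by linarith
  have hu0 : 0 < u := by rw [hu]; positivity
  have hα : (1 + u) * (p : ℝ) = u := by rw [hu]; field_simp; ring
  set δ : ℝ := u ^ 2 / (1 + u) ^ 6 with hδ
  have hδ0 : 0 < δ := by rw [hδ]; positivity
  obtain ⟨C3, h3⟩ := small (n := 3) p hp hp0 hp1
  obtain ⟨C4, h4⟩ := small (n := 4) p hp hp0 hp1
  obtain ⟨C5, h5⟩ := small (n := 5) p hp hp0 hp1
  set C : ℝ := Kb u / δ + |C3| + |C4| + |C5| with hC
  have hK : 0 ≤ Kb u / δ := div_nonneg (Kb_nonneg hu0.le) hδ0.le
  have hC0 : 0 ≤ C := by rw [hC]; positivity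
  refine ⟨C.toNNReal, fun n _ hn => ?_⟩
  have hCe : ((C.toNNReal : ℝ≥0) : ℝ≥0∞) = ENNReal.ofReal C := rfl
  rw [hCe]
  unfold relaxationTime
  apply iSup_le
  intro x
  have hn1 : (1 : ℝ) ≤ n := by exact_mod_cast (by omega : 1 ≤ n)
  have key : ∀ D : ℝ, D ≤ C → ENNReal.ofReal D ≤ ENNReal.ofReal C * (n : ℝ≥0∞) := by
    intro D hD
    calc ENNReal.ofReal D ≤ ENNReal.ofReal C := ENNReal.ofReal_le_ofReal hD
      _ = ENNReal.ofReal C * 1 := (mul_one _).symm
      _ ≤ ENNReal.ofReal C * (n : ℝ≥0∞) := by
        gcongr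
        exact_mod_cast (by omega : 1 ≤ n)
  rcases Nat.lt_or_ge n 6 with h6 | h6
  · have hcases : n = 3 ∨ n = 4 ∨ n = 5 := by omega
    rcases hcases with rfl | rfl | rfl
    · refine le_trans ?_ (key C3 ?_)
      · convert h3 x
      · have := le_abs_self C3
        have := abs_nonneg C4
        have := abs_nonneg C5
        rw [hC]; linarith
    · refine le_trans ?_ (key C4 ?_)
      · convert h4 x
      · have := le_abs_self C4
        have := abs_nonneg C3
        have := abs_nonneg C5
        rw [hC]; linarith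
    · refine le_trans ?_ (key C5 ?_)
      · convert h5 x
      · have := le_abs_self C5
        have := abs_nonneg C3
        have := abs_nonneg C4
        rw [hC]; linarith
  · refine (large h6 p hp hu0 hα hδ x).trans ?_
    rw [← ENNReal.ofReal_div_of_pos hδ0]
    have hnn : (n : ℝ≥0∞) = ENNReal.ofReal (n : ℝ) := by simp
    rw [hnn, ← ENNReal.ofReal_mul hC0]
    apply ENNReal.ofReal_le_ofReal
    have h8 : (n : ℝ) * Kb u / δ = Kb u / δ * n := by ring
    rw [h8]
    apply mul_le_mul_of_nonneg_right _ (by linarith)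
    have := abs_nonneg C3
    have := abs_nonneg C4
    have := abs_nonneg C5
    rw [hC]; linarith

end Pool.Agent.H312R210
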