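import Mathlib

namespace Pool.Agent.H312R210

open MeasureTheory ProbabilityTheory Finset
open scoped ENNReal NNReal

section abstract

variable {K S : Type} [MeasurableSpace K] [Fintype K] [MeasurableSingletonClass K] [Nonempty K]

/-- the driven process -/
def run (V : K → S → S) (s : S) (ω : ℕ → K) : ℕ → S
  | 0 => s
  | t + 1 => V (ω t) (run V s ω t)

theorem run_congr (V : K → S → S) (s : S) {ω ω' : ℕ → K} :
    ∀ t, (∀ r, r < t → ω r = ω' r) → run V s ω t = run V s ω' t := by
  intro t
  induction t with
  | zero => intro _; rfl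
  | succ t ih =>
    intro h
    simp only [run]
    rw [h t (by omega), ih (fun r hr => h r (by omega))]

variable [MeasurableSpace S] [Fintype S] [MeasurableSingletonClass S]

theorem run_measurable (V : K → S → S) (s : S) (t : ℕ) :
    Measurable (fun ω : ℕ → K => run V s ω t) := by
  induction t with
  | zero => exact measurable_const
  | succ t ih =>
    have h : Measurable (fun p : K × S => V p.1 p.2) := measurable_of_countable _
    exact h.comp ((measurable_pi_apply t).prodMk ih)

theorem run_indep (ν : Measure K) [IsProbabilityMeasure ν] (V : K → S → S) (s : S) (t : ℕ) :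
    IndepFun (fun ω : ℕ → K => run V s ω t) (fun ω : ℕ → K => ω t)
      (Measure.infinitePi fun _ : ℕ => ν) := by
  have h1 : iIndepFun (fun (i : ℕ) (ω : ℕ → K) => ω i) (Measure.infinitePi fun _ : ℕ => ν) :=
    iIndepFun_infinitePi (P := fun _ : ℕ => ν) (X := fun _ x => x) (fun _ => measurable_id)
  have h2 := h1.indepFun_finset (range t) {t} (by simp) (fun i => measurable_pi_apply i)
  classical
  let k0 : K := Classical.arbitrary K
  let g : ((i : (range t : Finset ℕ)) → K) → S := fun v =>
    run V s (fun r => if h : r ∈ range t then v ⟨r, h⟩ else k0) t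
  let e : ((i : ({t} : Finset ℕ)) → K) → K := fun v => v ⟨t, by simp⟩
  have hg : Measurable g := measurable_of_countable _
  have he : Measurable e := measurable_pi_apply _
  have h3 := h2.comp hg he
  have e1 : (g ∘ fun (a : ℕ → K) (i : (range t : Finset ℕ)) => a i) =
      fun ω : ℕ → K => run V s ω t := by
    funext ω
    simp only [Function.comp, g]
    apply run_congr
    intro r hr
    simp [hr]
  have e2 : (e ∘ fun (a : ℕ → K) (i : ({t} : Finset ℕ)) => a i) = fun ω : ℕ → K => ω t := by
    funext ω
    simp [e]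
  rwa [e1, e2] at h3

theorem run_step (ν : Measure K) [IsProbabilityMeasure ν] (V : K → S → S) (s : S) (t : ℕ)
    (F : S → ℝ≥0∞) :
    ∫⁻ ω, F (run V s ω (t + 1)) ∂(Measure.infinitePi fun _ : ℕ => ν) =
      ∫⁻ ω, (∑ B, F (V B (run V s ω t)) * ν {B}) ∂(Measure.infinitePi fun _ : ℕ => ν) := by
  set μ := Measure.infinitePi fun _ : ℕ => ν with hμ
  have hind := run_indep ν V s t
  have hm1 := run_measurable V s t
  have hm2 : Measurable (fun ω : ℕ → K => ω t) := measurable_pi_apply t
  have hpair := (indepFun_iff_map_prod_eq_prod_map_map hm1.aemeasurable hm2.aemeasurable).1 hind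
  have hmF : Measurable (fun p : S × K => F (V p.2 p.1)) := measurable_of_countable _
  calc ∫⁻ ω, F (run V s ω (t + 1)) ∂μ
      = ∫⁻ ω, (fun p : S × K => F (V p.2 p.1)) (run V s ω t, ω t) ∂μ := rfl
    _ = ∫⁻ p, F (V p.2 p.1) ∂(μ.map (fun ω => (run V s ω t, ω t))) :=
        (lintegral_map hmF (hm1.prodMk hm2)).symm
    _ = ∫⁻ p, F (V p.2 p.1) ∂((μ.map (fun ω => run V s ω t)).prod (μ.map (fun ω => ω t))) := by
        rw [hpair]
    _ = ∫⁻ y, ∫⁻ B, F (V B y) ∂(μ.map (fun ω => ω t)) ∂(μ.map (fun ω => run V s ω t)) :=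
        lintegral_prod _ hmF.aemeasurable
    _ = ∫⁻ y, (∑ B, F (V B y) * ν {B}) ∂(μ.map (fun ω => run V s ω t)) := by
        congr 1
        funext y
        rw [hμ, Measure.infinitePi_map_eval, lintegral_fintype]
    _ = _ := by
        rw [lintegral_map (measurable_of_countable _) hm1]

/-- drift bound for the expected number of visits to `Bad` -/
theorem run_bound (ν : Measure K) [IsProbabilityMeasure ν] (V : K → S → S) (s : S)
    (Inv : S → Prop) (h0 : Inv s) (hInv : ∀ B y, Inv y → Inv (V B y)) (Bad : S → Prop)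
    [DecidablePred Bad] (F : S → ℝ≥0∞) (δ : ℝ≥0∞)
    (hdrift : ∀ y, Inv y → (∑ B, F (V B y) * ν {B}) + (if Bad y then δ else 0) ≤ F y) :
    ∑' t : ℕ, ∫⁻ ω, (if Bad (run V s ω t) then δ else 0)
      ∂(Measure.infinitePi fun _ : ℕ => ν) ≤ F s := by
  set μ := Measure.infinitePi fun _ : ℕ => ν with hμ
  have hinv : ∀ ω t, Inv (run V s ω t) := by
    intro ω t
    induction t with
    | zero => exact h0
    | succ t ih => exact hInv _ _ ih
  have hstep : ∀ N : ℕ, ∫⁻ ω, F (run V s ω N) ∂μ +
      ∑ t ∈ range N, ∫⁻ ω, (if Bad (run V s ω t) then δ else 0) ∂μ ≤ F s := by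
    intro N
    induction N with
    | zero => simp [run]
    | succ N ih =>
      refine le_trans ?_ ih
      rw [sum_range_succ, run_step, ← add_assoc, add_right_comm, ← lintegral_add_left]
      · gcongr with ω
        exact hdrift _ (hinv ω N)
      · have : Measurable (fun y : S => ∑ B, F (V B y) * ν {B}) := measurable_of_countable _
        exact this.comp (run_measurable V s N)
  apply ENNReal.tsum_le_of_sum_range_le
  intro N
  exact le_trans le_add_self (hstep N)

end abstract

end Pool.Agent.H312R210
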