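import Pool.Agent.H312R210.Defs
import Pool.Agent.H312R210.Core
import Pool.Agent.H312R210.Check

namespace Pool.Agent.H312R210

open Cell Finset

variable {n : ℕ}

/-- labels at cells `j, j+1, …, j+m-1` -/
def cells (c : ZMod n → Cell) : ℕ → ZMod n → List Cell
  | 0, _ => []
  | m + 1, j => c j :: cells c m (j + 1)

def Zf (c : ZMod n → Cell) (B : ZMod n → Bool) (j : ZMod n) : Bool :=
  nz (c j) (c (j + 1)) (c (j + 1 + 1)) (B (j + 1))

def zl (c : ZMod n → Cell) (B : ZMod n → Bool) : ℕ → ZMod n → List Bool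
  | 0, _ => []
  | k + 1, j => Zf c B j :: zl c B k (j + 1)

def updAt (c : ZMod n → Cell) (B : ZMod n → Bool) (j : ZMod n) : Cell :=
  newc (c j) (c (j + 1)) (c (j + 1 + 1)) (c (j + 1 + 1 + 1)) (Zf c B j) (Zf c B (j + 1))
    (Zf c B (j + 1 + 1))

/-- labelled update -/
def upd (B : ZMod n → Bool) (c : ZMod n → Cell) : ZMod n → Cell := fun i => updAt c B (i - 1)

theorem zl_update (c : ZMod n → Cell) (B : ZMod n → Bool) (i : ZMod n) (b : Bool) :
    ∀ (k : ℕ) (j : ZMod n), (∀ t : ℕ, t < k → j + 1 + (t : ZMod n) ≠ i) →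
      zl c (Function.update B i b) k j = zl c B k j := by
  intro k
  induction k with
  | zero => intro j _; rfl
  | succ k ih =>
    intro j h
    have h0 : j + 1 ≠ i := by simpa using h 0 (by omega)
    simp only [zl, Zf]
    rw [Function.update_of_ne h0, ih (j + 1)]
    intro t ht
    have := h (t + 1) (by omega)
    intro hc
    apply this
    rw [← hc]
    push_cast
    ring

theorem exp_eq [NeZero n] {u α : ℝ} (hα : (1 + u) * α = u) (c : ZMod n → Cell) :
    ∀ (k : ℕ), k ≤ n → ∀ (j : ZMod n) (g : List Bool → List ℕ),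
      evalP u (expZ k (cells c (k + 2) j) g) =
        (1 + u) ^ k * Ex α (fun B => evalP u (g (zl c B k j))) := by
  intro k
  induction k with
  | zero =>
    intro _ j g
    simp [expZ, zl, Ex_const]
  | succ k ih =>
    intro hk j g
    have hcond := Ex_cond α (j + 1) (fun B => evalP u (g (zl c B (k + 1) j)))
    have e1 : ∀ b : Bool, (fun B => evalP u (g (zl c (Function.update B (j + 1) b) (k + 1) j))) =
        fun B => evalP u (g (nz (c j) (c (j + 1)) (c (j + 1 + 1)) b :: zl c B k (j + 1))) := by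
      intro b
      funext B
      have : zl c (Function.update B (j + 1) b) k (j + 1) = zl c B k (j + 1) := by
        apply zl_update
        intro t ht hc
        have h2 : ((t + 1 : ℕ) : ZMod n) = 0 := by
          have : j + 1 + ((t + 1 : ℕ) : ZMod n) = j + 1 + 0 := by
            rw [add_zero]
            conv_rhs => rw [← hc]
            push_cast
            ring
          exact add_left_cancel this
        rw [ZMod.natCast_eq_zero_iff] at h2
        have := Nat.le_of_dvd (by omega) h2
        omega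
      simp only [zl, Zf, this, Function.update_self]
    rw [hcond, e1 true, e1 false]
    have ih1 := ih (by omega) (j + 1)
      (fun l => g (nz (c j) (c (j + 1)) (c (j + 1 + 1)) true :: l))
    have ih0 := ih (by omega) (j + 1)
      (fun l => g (nz (c j) (c (j + 1)) (c (j + 1 + 1)) false :: l))
    have hcells : cells c (k + 1 + 2) j = c j :: c (j + 1) :: c (j + 1 + 1) ::
      cells c k (j + 1 + 1 + 1) := rfl
    have hcells2 : cells c (k + 2) (j + 1) = c (j + 1) :: c (j + 1 + 1) ::
      cells c k (j + 1 + 1 + 1) := rfl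
    rw [hcells2] at ih1 ih0
    rw [hcells]
    simp only [expZ]
    rcases h1 : nz (c j) (c (j + 1)) (c (j + 1 + 1)) true with _ | _ <;>
    rcases h0 : nz (c j) (c (j + 1)) (c (j + 1 + 1)) false with _ | _ <;>
    simp only [h1, h0] at ih1 ih0 ⊢ <;>
    simp only [evalP_padd, evalP_mul1p, evalP] <;>
    rw [ih0] <;> try rw [ih1]
    · ring
    · push_cast
      linear_combination (-(1 + u) ^ k * Ex α (fun B => evalP u (g (false :: zl c B k (j + 1)))) +
        (1 + u) ^ k * Ex α (fun B => evalP u (g (true :: zl c B k (j + 1))))) * hα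
    · push_cast
      linear_combination (-(1 + u) ^ k * Ex α (fun B => evalP u (g (true :: zl c B k (j + 1)))) +
        (1 + u) ^ k * Ex α (fun B => evalP u (g (false :: zl c B k (j + 1))))) * hα
    · ring

/-- validity of a labelling -/
def Valid (c : ZMod n → Cell) : Prop := ∀ j, c j = U → c (j + 1) = M

theorem validL_cells {c : ZMod n → Cell} (hc : Valid c) :
    ∀ (m : ℕ) (j : ZMod n), validL (cells c m j) = true := by
  intro m
  induction m with
  | zero => intro j; rfl
  | succ m ih =>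
    intro j
    cases m with
    | zero => simp [cells, validL]
    | succ m =>
      have h := ih (j + 1)
      have hj := hc j
      simp only [cells] at h ⊢
      cases h1 : c j <;> cases h2 : c (j + 1) <;> rw [h2] at h <;> simp_all [validL]

def vchk (v0 v1 v2 v3 v4 v5 : Cell) (b0 b1 b2 b3 : Bool) : Bool :=
  !(decide (newc v0 v1 v2 v3 (nz v0 v1 v2 b0) (nz v1 v2 v3 b1) (nz v2 v3 v4 b2) = U)) ||
  decide (newc v1 v2 v3 v4 (nz v1 v2 v3 b1) (nz v2 v3 v4 b2) (nz v3 v4 v5 b3) = M) ||
  (decide (v0 = U) && !(decide (v1 = M))) || (decide (v1 = U) && !(decide (v2 = M))) ||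
  (decide (v2 = U) && !(decide (v3 = M))) || (decide (v3 = U) && !(decide (v4 = M))) ||
  (decide (v4 = U) && !(decide (v5 = M)))

def vchkL : List Cell → Bool
  | [v0, v1, v2, v3, v4, v5] =>
    [true, false].all fun b0 => [true, false].all fun b1 => [true, false].all fun b2 =>
      [true, false].all fun b3 => vchk v0 v1 v2 v3 v4 v5 b0 b1 b2 b3
  | _ => true

set_option maxRecDepth 100000 in
theorem vchk_ok : forallWords 6 vchkL = true := by decide +kernel

theorem valid_check (v0 v1 v2 v3 v4 v5 : Cell) (b0 b1 b2 b3 : Bool)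
    (h : newc v0 v1 v2 v3 (nz v0 v1 v2 b0) (nz v1 v2 v3 b1) (nz v2 v3 v4 b2) = U) :
    newc v1 v2 v3 v4 (nz v1 v2 v3 b1) (nz v2 v3 v4 b2) (nz v3 v4 v5 b3) = M ∨
    (v0 = U ∧ v1 ≠ M) ∨ (v1 = U ∧ v2 ≠ M) ∨ (v2 = U ∧ v3 ≠ M) ∨ (v3 = U ∧ v4 ≠ M) ∨
    (v4 = U ∧ v5 ≠ M) := by
  have h1 := forallWords_sound 6 _ vchk_ok [v0, v1, v2, v3, v4, v5] rfl
  have h2 : vchk v0 v1 v2 v3 v4 v5 b0 b1 b2 b3 = true := by
    simp only [vchkL, List.all_cons, List.all_nil, Bool.and_true, Bool.and_eq_true] at h1
    cases b0 <;> cases b1 <;> cases b2 <;> cases b3 <;> simp only [h1]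
  simp only [vchk, Bool.or_eq_true, Bool.and_eq_true, Bool.not_eq_true', decide_eq_true_eq,
    decide_eq_false_iff_not] at h2
  tauto

theorem upd_add_one (B : ZMod n → Bool) (c : ZMod n → Cell) (j : ZMod n) :
    upd B c (j + 1) = updAt c B j := by
  simp [upd]

theorem valid_upd {c : ZMod n → Cell} (hc : Valid c) (B : ZMod n → Bool) : Valid (upd B c) := by
  intro j hj
  obtain ⟨i, rfl⟩ : ∃ i, j = i + 1 := ⟨j - 1, by ring⟩
  rw [upd_add_one] at hj
  rw [upd_add_one]
  have h := valid_check (c i) (c (i + 1)) (c (i + 1 + 1)) (c (i + 1 + 1 + 1))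
    (c (i + 1 + 1 + 1 + 1)) (c (i + 1 + 1 + 1 + 1 + 1)) (B (i + 1)) (B (i + 1 + 1))
    (B (i + 1 + 1 + 1)) (B (i + 1 + 1 + 1 + 1)) hj
  rcases h with h | h | h | h | h | h
  · exact h
  · exact absurd (hc _ h.1) h.2
  · exact absurd (hc _ h.1) h.2
  · exact absurd (hc _ h.1) h.2
  · exact absurd (hc _ h.1) h.2
  · exact absurd (hc _ h.1) h.2

/-- the configuration underlying a labelling -/
def base (c : ZMod n → Cell) : ZMod n → Bool := fun i => !(zz (c i))

theorem zz_newc : ∀ (v0 v1 v2 v3 : Cell) (z0 z1 z2 : Bool), zz (newc v0 v1 v2 v3 z0 z1 z2) = z0 := by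
  decide +kernel

theorem nz_rule : ∀ (a b c : Cell) (t : Bool), (!(nz a b c t)) =
    (if t then rule210 (!(zz a)) (!(zz b)) (!(zz c)) else !(zz b)) := by
  decide +kernel

theorem base_upd (B : ZMod n → Bool) (c : ZMod n → Cell) : base (upd B c) = step B (base c) := by
  funext i
  obtain ⟨j, rfl⟩ : ∃ j, i = j + 1 := ⟨i - 1, by ring⟩
  simp only [base, upd_add_one, updAt, zz_newc, Zf, nz_rule, step, add_sub_cancel_right]

/-- the potential -/
noncomputable def Phi [NeZero n] (u : ℝ) (c : ZMod n → Cell) : ℝ :=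
  ∑ j, evalP u (phiT.get (cells c 4 j))

theorem sum_shift [NeZero n] (f : ZMod n → ℝ) : ∑ j, f (j + 1) = ∑ j, f j :=
  Fintype.sum_equiv (Equiv.addRight 1) _ _ (fun _ => rfl)

theorem Phi_upd [NeZero n] (u : ℝ) (c : ZMod n → Cell) (B : ZMod n → Bool) :
    Phi u (upd B c) = ∑ j, evalP u (phiNew (cells c 8 j) (zl c B 6 j)) := by
  unfold Phi
  rw [← sum_shift]
  apply Finset.sum_congr rfl
  intro j _
  have : cells (upd B c) 4 (j + 1) = [updAt c B j, updAt c B (j + 1), updAt c B (j + 1 + 1),
      updAt c B (j + 1 + 1 + 1)] := by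
    simp only [cells, upd_add_one]
  rw [this]
  rfl

theorem drift [NeZero n] (h6 : 6 ≤ n) {u α : ℝ} (hu : 0 ≤ u) (hα : (1 + u) * α = u)
    {c : ZMod n → Cell} (hc : Valid c) :
    (1 + u) ^ 6 * Ex α (fun B => Phi u (upd B c)) +
      ∑ j, (if mixed (cells c 8 j) then u ^ 2 else 0) ≤ (1 + u) ^ 6 * Phi u c := by
  have key : ∀ j : ZMod n,
      (1 + u) ^ 6 * Ex α (fun B => evalP u (phiNew (cells c 8 j) (zl c B 6 j))) +
        (evalP u (hT.get (cells c 7 j)) + (if mixed (cells c 8 j) then u ^ 2 else 0)) ≤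
      (1 + u) ^ 6 * evalP u (phiT.get (cells c 4 j)) + evalP u (hT.get (cells c 7 (j + 1))) := by
    intro j
    have hok := okV_of_valid (cells c 8 j) rfl (validL_cells hc 8 j)
    unfold okV at hok
    have h := evalP_ple hu _ _ hok
    simp only [evalP_padd, evalP_mul1p] at h
    rw [exp_eq hα c 6 h6 j] at h
    have e1 : (cells c 8 j).take 7 = cells c 7 j := rfl
    have e2 : (cells c 8 j).take 4 = cells c 4 j := rfl
    have e3 : (cells c 8 j).drop 1 = cells c 7 (j + 1) := rfl
    rw [e1, e2, e3] at h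
    have e4 : evalP u (if mixed (cells c 8 j) = true then [0, 0, 1] else []) =
        (if mixed (cells c 8 j) = true then u ^ 2 else 0) := by
      split_ifs
      · simp [evalP]; ring
      · simp [evalP]
    rw [e4] at h
    calc _ ≤ _ := h
      _ = _ := by ring
  have hs := Finset.sum_le_sum (fun j (_ : j ∈ (univ : Finset (ZMod n))) => key j)
  simp only [Finset.sum_add_distrib] at hs
  rw [sum_shift (fun j => evalP u (hT.get (cells c 7 j))), ← Finset.mul_sum, ← Finset.mul_sum,
    ← Ex_sum] at hs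
  have e5 : (fun B => Phi u (upd B c)) =
      fun B => ∑ j, evalP u (phiNew (cells c 8 j) (zl c B 6 j)) := by
    funext B
    exact Phi_upd u c B
  rw [e5]
  have e6 : Phi u c = ∑ j, evalP u (phiT.get (cells c 4 j)) := rfl
  rw [e6]
  linarith

theorem exists_ne_succ [NeZero n] {x : ZMod n → Bool} (h : ∀ j, x j = x (j + 1)) :
    ∀ j, x j = x 0 := by
  have : ∀ k : ℕ, x (k : ZMod n) = x 0 := by
    intro k
    induction k with
    | zero => simp
    | succ k ih => push_cast; rw [← h, ih]
  intro j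
  have := this j.val
  rwa [ZMod.natCast_zmod_val] at this

theorem mixed_of_ne {c : ZMod n → Cell} {j : ZMod n} (h : base c j ≠ base c (j + 1)) :
    mixed (cells c 8 j) = true := by
  simp only [base] at h
  simp only [mixed, cells, List.any_cons, Bool.and_eq_true, Bool.or_eq_true]
  cases h1 : zz (c j) <;> cases h2 : zz (c (j + 1)) <;> simp_all

end Pool.Agent.H312R210
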