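import Pool.Agent.H312R210.Ring
import Pool.Agent.H312R210.Prob

namespace Pool.Agent.H312R210

open MeasureTheory ProbabilityTheory Finset
open scoped ENNReal NNReal

variable {n : ℕ}

instance [NeZero n] (p : ℝ≥0) (hp : p ≤ 1) : IsProbabilityMeasure (coins n p hp) := by
  unfold coins; infer_instance

theorem traj_eq_run (x : ZMod n → Bool) (ω : ℕ → ZMod n → Bool) (t : ℕ) :
    traj x ω t = run step x ω t := by
  induction t with
  | zero => rfl
  | succ t ih => simp only [traj, run, ih]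

open Classical in
theorem hit_le_tsum (x : ZMod n → Bool) (ω : ℕ → ZMod n → Bool) :
    ((hit x ω : ℕ∞) : ℝ≥0∞) ≤ ∑' t : ℕ, (if IsFixed (traj x ω t) then (0 : ℝ≥0∞) else 1) := by
  have key : ∀ N : ℕ, (N : ℕ∞) ≤ hit x ω →
      (N : ℝ≥0∞) ≤ ∑' t : ℕ, (if IsFixed (traj x ω t) then (0 : ℝ≥0∞) else 1) := by
    intro N hN
    have h1 : ∀ t ∈ range N, (if IsFixed (traj x ω t) then (0 : ℝ≥0∞) else 1) = 1 := by
      intro t ht
      rw [if_neg]
      intro hf
      have h2 : hit x ω ≤ (t : ℕ∞) := iInf₂_le t hf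
      have h3 : (N : ℕ∞) ≤ (t : ℕ∞) := hN.trans h2
      have h4 : N ≤ t := by exact_mod_cast h3
      have := mem_range.1 ht
      omega
    calc (N : ℝ≥0∞) = ∑ t ∈ range N, (if IsFixed (traj x ω t) then (0 : ℝ≥0∞) else 1) := by
          rw [sum_congr rfl h1]; simp
      _ ≤ _ := ENNReal.sum_le_tsum _
  rcases eq_or_ne (hit x ω) ⊤ with h | h
  · rw [h]
    simp only [ENat.toENNReal_top]
    rw [← ENNReal.iSup_natCast]
    apply iSup_le
    intro N
    exact key N (by rw [h]; exact le_top)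
  · obtain ⟨k, hk⟩ := ENat.ne_top_iff_exists.1 h
    rw [← hk]
    simpa using key k (by rw [hk])

open Classical in
theorem meanTime_le [NeZero n] (p : ℝ≥0) (hp : p ≤ 1) {S : Type} [MeasurableSpace S] [Fintype S]
    [MeasurableSingletonClass S] (V : (ZMod n → Bool) → S → S) (π : S → (ZMod n → Bool))
    (hπ : ∀ B y, π (V B y) = step B (π y)) (Inv : S → Prop)
    (hInv : ∀ B y, Inv y → Inv (V B y)) (F : S → ℝ≥0∞) (δ : ℝ≥0∞) (hδ : δ ≠ 0) (hδ' : δ ≠ ⊤)
    (hdrift : ∀ y, Inv y →
      (∑ B, F (V B y) * (coins n p hp) {B}) + (if IsFixed (π y) then 0 else δ) ≤ F y)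
    (s : S) (h0 : Inv s) : meanTime p hp (π s) ≤ F s / δ := by
  have hrun : ∀ ω t, π (run V s ω t) = traj (π s) ω t := by
    intro ω t
    induction t with
    | zero => rfl
    | succ t ih => simp only [run, traj, hπ, ih]
  have hb := run_bound (coins n p hp) V s Inv h0 hInv (fun y => ¬ IsFixed (π y)) F δ (by
    intro y hy
    have := hdrift y hy
    simpa only [ite_not] using this)
  have h1 : ∀ t : ℕ, ∫⁻ ω, (if ¬ IsFixed (π (run V s ω t)) then δ else 0)
      ∂(Measure.infinitePi fun _ : ℕ => coins n p hp) =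
      δ * ∫⁻ ω, (if IsFixed (traj (π s) ω t) then (0 : ℝ≥0∞) else 1) ∂(law n p hp) := by
    intro t
    rw [← lintegral_const_mul']
    · unfold law
      congr 1
      funext ω
      rw [hrun]
      by_cases h : IsFixed (traj (π s) ω t) <;> simp [h]
    · exact hδ'
  simp only [h1] at hb
  rw [ENNReal.tsum_mul_left] at hb
  rw [ENNReal.le_div_iff_mul_le (Or.inl hδ) (Or.inl hδ'), mul_comm]
  refine le_trans ?_ hb
  gcongr
  unfold meanTime
  rw [← lintegral_tsum]
  · exact lintegral_mono (fun ω => hit_le_tsum _ _)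
  · intro t
    apply Measurable.aemeasurable
    have hm : Measurable (fun y : ZMod n → Bool => if IsFixed y then (0 : ℝ≥0∞) else 1) :=
      measurable_of_countable _
    have h2 := hm.comp (run_measurable (K := ZMod n → Bool) (step (n := n)) (π s) t)
    have e : ((fun y : ZMod n → Bool => if IsFixed y then (0 : ℝ≥0∞) else 1) ∘
        fun ω : ℕ → (ZMod n → Bool) => run step (π s) ω t) =
        fun ω => if IsFixed (traj (π s) ω t) then (0 : ℝ≥0∞) else 1 := by
      funext ω
      simp only [Function.comp, traj_eq_run]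
    rwa [e] at h2

theorem coins_singleton [NeZero n] (p : ℝ≥0) (hp : p ≤ 1) (B : ZMod n → Bool) :
    (coins n p hp) {B} = ENNReal.ofReal (wt (p : ℝ) B) := by
  unfold coins wt
  rw [Measure.pi_singleton, ENNReal.ofReal_prod_of_nonneg]
  · apply Finset.prod_congr rfl
    intro i _
    rw [PMF.toMeasure_apply_singleton _ _ (measurableSet_singleton _)]
    unfold coin
    rw [PMF.ofFintype_apply]
    cases B i
    · simp [ENNReal.ofReal_sub]
    · simp
  · intro i _
    have : (p : ℝ) ≤ 1 := by exact_mod_cast hp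
    split_ifs
    · exact p.2
    · linarith

theorem wt_nonneg [NeZero n] {α : ℝ} (h0 : 0 ≤ α) (h1 : α ≤ 1) (B : ZMod n → Bool) :
    0 ≤ wt α B := by
  unfold wt
  apply Finset.prod_nonneg
  intro i _
  split_ifs <;> linarith

theorem sum_ofReal [NeZero n] (p : ℝ≥0) (hp : p ≤ 1) (G : (ZMod n → Bool) → ℝ)
    (hG : ∀ B, 0 ≤ G B) :
    ∑ B, ENNReal.ofReal (G B) * (coins n p hp) {B} = ENNReal.ofReal (Ex (p : ℝ) G) := by
  have h1 : (p : ℝ) ≤ 1 := by exact_mod_cast hp
  unfold Ex
  rw [ENNReal.ofReal_sum_of_nonneg]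
  · apply Finset.sum_congr rfl
    intro B _
    rw [coins_singleton, mul_comm, ENNReal.ofReal_mul (wt_nonneg (NNReal.coe_nonneg p) h1 B)]
  · intro B _
    exact mul_nonneg (wt_nonneg (NNReal.coe_nonneg p) h1 B) (hG B)

end Pool.Agent.H312R210
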